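import Pool.Agent.helper28.EG.SpecP

set_option autoImplicit false

open Complex Metric Set Filter Topology MeasureTheory
open WP (it)

noncomputable section

namespace EG

/-- PER: in the coordinate `g` is the translation by `ν` plus a function which is analytic at `p`. -/
theorem PER : PER_stmt := by
  intro g p ν h hP
  have hν := hP.nu
  have h0 := hP.h0
  have hFa : AnalyticAt ℂ (fun w : ℂ => ((1 + w) ^ ν)⁻¹) 0 := by
    refine AnalyticAt.inv ?_ (by simp)
    exact (analyticAt_const.add analyticAt_id).pow ν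
  set κ : ℂ → ℂ := dslope (fun w : ℂ => ((1 + w) ^ ν)⁻¹) 0 with hκ
  have hκa : AnalyticAt ℂ κ 0 := by
    obtain ⟨s, hs⟩ := hFa
    exact ⟨_, hs.has_fpower_series_dslope_fslope⟩
  have hκe : ∀ w : ℂ, ((1 + w) ^ ν)⁻¹ - 1 = w * κ w := by
    intro w
    have := sub_smul_dslope (fun w : ℂ => ((1 + w) ^ ν)⁻¹) 0 w
    simp only [sub_zero, add_zero, one_pow, inv_one, smul_eq_mul] at this
    rw [hκ]
    exact this.symm
  have hwa : AnalyticAt ℂ (fun z => (z - p) ^ ν * h z) p :=
    ((analyticAt_id.sub analyticAt_const).pow ν).mul hP.an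
  have hw0 : (p - p) ^ ν * h p = 0 := by
    rw [sub_self, zero_pow (by omega), zero_mul]
  have hΦa : AnalyticAt ℂ (fun z => -(h z / h p) * κ ((z - p) ^ ν * h z)) p := by
    refine AnalyticAt.mul ?_ ?_
    · exact (hP.an.div analyticAt_const h0).neg
    · exact AnalyticAt.fun_comp (by rw [hw0]; exact hκa) hwa
  obtain ⟨K, t, ht, hLip⟩ := (hΦa.contDiffAt (n := 1)).exists_lipschitzOnWith
  have hne : ∀ᶠ z in 𝓝 p, 1 + (z - p) ^ ν * h z ≠ 0 := by
    have h1 : Tendsto (fun z => 1 + (z - p) ^ ν * h z) (𝓝 p) (𝓝 (1 + 0)) := by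
      have h2 := hwa.continuousAt.tendsto
      rw [hw0] at h2
      exact h2.const_add 1
    exact h1.eventually_ne (by simp)
  obtain ⟨r, hr, hball⟩ := Metric.eventually_nhds_iff_ball.1 ((hP.eq.and hne).and (Filter.eventually_mem_set.2 ht))
  have key : ∀ z ∈ ball p r, z ≠ p → g z ≠ p ∧
      PET_t (h p) p ν (g z) - PET_t (h p) p ν z = -(h z / h p) * κ ((z - p) ^ ν * h z) := by
    intro z hz hzp
    obtain ⟨⟨h1, h5'⟩, -⟩ := hball z hz
    have h3 : z - p ≠ 0 := sub_ne_zero.2 hzp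
    have h4 : g z - p = (z - p) * (1 + (z - p) ^ ν * h z) := by rw [h1]; ring
    refine ⟨fun hgp => ?_, ?_⟩
    · rw [hgp, sub_self] at h4
      exact mul_ne_zero h3 h5' h4.symm
    · have h5 : PET_t (h p) p ν (g z) = PET_t (h p) p ν z * ((1 + (z - p) ^ ν * h z) ^ ν)⁻¹ := by
        unfold PET_t
        rw [h4, mul_pow]
        rw [← mul_assoc, mul_inv]
        ring
      rw [h5]
      have h6 : PET_t (h p) p ν z * ((1 + (z - p) ^ ν * h z) ^ ν)⁻¹ - PET_t (h p) p ν z =
          PET_t (h p) p ν z * (((1 + (z - p) ^ ν * h z) ^ ν)⁻¹ - 1) := by ring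
      rw [h6, hκe]
      unfold PET_t
      field_simp
  refine ⟨r, K + 1, hr, by positivity, ?_⟩
  intro z hz z' hz' hzp hzp'
  obtain ⟨h1, h2⟩ := key z hz hzp
  obtain ⟨-, h3⟩ := key z' hz' hzp'
  refine ⟨h1, ?_⟩
  rw [h2, h3]
  have h4 := hLip.dist_le_mul z (hball z hz).2 z' (hball z' hz').2
  rw [dist_eq_norm, dist_eq_norm] at h4
  refine h4.trans ?_
  have := norm_nonneg (z - z')
  nlinarith

end EG
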